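import Pool.Agent.Lib.MP_2b7a4a_coL.Chain

/-!
Every two-colouring of the plane without two red points at distance one contains a blue six-term
arithmetic progression with unit step.
-/

namespace Pool.Agent.Results.MP_2b7a4a_co.LowerBound

/-- The plane. -/
abbrev Plane := EuclideanSpace ℝ (Fin 2)

/-- `k ∈ S` when some set `B` of blue points (its complement being red) has no two red points at
distance exactly `1` and contains no `k`-term arithmetic progression with unit step. -/
def S : Set ℕ :=
  {k | 1 ≤ k ∧ ∃ B : Set Plane,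
    (∀ x ∉ B, ∀ y ∉ B, dist x y ≠ 1) ∧
      ¬ ∃ x v : Plane, ‖v‖ = 1 ∧ ∀ j : ℕ, j < k → x + (j : ℝ) • v ∈ B}

/-- the identification of the complex plane with the Euclidean plane -/
private noncomputable def psi (z : ℂ) : Plane := !₂[z.re, z.im]

private theorem norm_psi (z : ℂ) : ‖psi z‖ = ‖z‖ := by
  rw [EuclideanSpace.norm_eq, Complex.norm_eq_sqrt_sq_add_sq]
  simp [psi, Fin.sum_univ_two]

private theorem psi_sub (z w : ℂ) : psi z - psi w = psi (z - w) := by
  ext i
  fin_cases i <;> simp [psi]

private theorem psi_ap (x v : ℂ) (j : ℕ) : psi (x + j * v) = psi x + (j : ℝ) • psi v := by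
  ext i
  fin_cases i <;> simp [psi]

theorem result : ∀ k ∈ S, 7 ≤ k := by
  rintro k ⟨_, B, hB1, hB2⟩
  by_contra hk
  refine APL.no_valid (fun z => psi z ∉ B) ⟨?_, ?_⟩
  · rintro p q hpq ⟨hp, hq⟩
    refine hB1 _ hp _ hq ?_
    rw [dist_eq_norm, psi_sub, norm_psi, hpq]
  · intro x v hv
    by_contra hne
    push Not at hne
    refine hB2 ⟨psi x, psi v, by rw [norm_psi, hv], fun j hj => ?_⟩
    have h := hne j (by omega)
    rwa [psi_ap] at h

end Pool.Agent.Results.MP_2b7a4a_co.LowerBound
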