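import Pool.Agent.Lib.MP_2b7a4a_co.Assembly

namespace Pool.Agent.Results.MP_2b7a4a_co.UpperBound

/-- The plane. -/
abbrev Plane := EuclideanSpace ℝ (Fin 2)

/-- `k ∈ S` when some set `B` of blue points (its complement being red) has no two red points at
distance exactly `1` and contains no `k`-term arithmetic progression with unit step. -/
def S : Set ℕ :=
  {k | 1 ≤ k ∧ ∃ B : Set Plane, (∀ x ∉ B, ∀ y ∉ B, dist x y ≠ 1) ∧
    ¬ ∃ x v : Plane, ‖v‖ = 1 ∧ ∀ j : ℕ, j < k → x + (j : ℝ) • v ∈ B}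

theorem result : 37 ∈ S :=
  ⟨by norm_num, Pool.Agent.Lib.MP_2b7a4a_co.main⟩

end Pool.Agent.Results.MP_2b7a4a_co.UpperBound
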